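import Mathlib
import Pool.Agent.Helper12.GM.Stmts

set_option autoImplicit false

open scoped MatrixGroups UpperHalfPlane
open Filter Topology UpperHalfPlane

namespace Pool.Agent.Helper12.GM

theorem tau_norm (A : SL(2, ℝ)) :
    2 * Real.cosh (dist (I : ℍ) (A • (I : ℍ))) = nsq A.1 := by
  have hdet : A.1 0 0 * A.1 1 1 - A.1 0 1 * A.1 1 0 = 1 := by
    have := A.2
    rwa [Matrix.det_fin_two] at this
  have hden : 0 < A.1 1 0 ^ 2 + A.1 1 1 ^ 2 := by
    by_contra hc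
    push Not at hc
    have h1 : A.1 1 0 = 0 := by nlinarith [sq_nonneg (A.1 1 0), sq_nonneg (A.1 1 1)]
    have h2 : A.1 1 1 = 0 := by nlinarith [sq_nonneg (A.1 1 0), sq_nonneg (A.1 1 1)]
    rw [h1, h2] at hdet
    norm_num at hdet
  have hz : ((A • (I : ℍ) : ℍ) : ℂ) =
      ((A.1 0 0 : ℂ) * Complex.I + A.1 0 1) / ((A.1 1 0 : ℂ) * Complex.I + A.1 1 1) := by
    rw [UpperHalfPlane.specialLinearGroup_apply]
    simp
  have hns : Complex.normSq ((A.1 1 0 : ℂ) * Complex.I + A.1 1 1) =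
      A.1 1 0 ^ 2 + A.1 1 1 ^ 2 := by
    simp [Complex.normSq_apply]
    ring
  have him : (A • (I : ℍ) : ℍ).im = 1 / (A.1 1 0 ^ 2 + A.1 1 1 ^ 2) := by
    rw [← UpperHalfPlane.coe_im, hz, Complex.div_im, hns, ← sub_div]
    congr 1
    simp
    linarith
  have hre : (A • (I : ℍ) : ℍ).re =
      (A.1 0 0 * A.1 1 0 + A.1 0 1 * A.1 1 1) / (A.1 1 0 ^ 2 + A.1 1 1 ^ 2) := by
    rw [← UpperHalfPlane.coe_re, hz, Complex.div_re, hns, ← add_div]
    congr 1
    simp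
    ring
  rw [UpperHalfPlane.cosh_dist, Complex.dist_eq_re_im, Real.sq_sqrt (by positivity)]
  simp only [UpperHalfPlane.coe_re, UpperHalfPlane.coe_im]
  rw [him, hre]
  simp only [UpperHalfPlane.I_re, UpperHalfPlane.I_im, nsq]
  set a := A.1 0 0
  set b := A.1 0 1
  set c := A.1 1 0
  set d := A.1 1 1
  have hq : (a * c + b * d) ^ 2 + 1 = (a ^ 2 + b ^ 2) * (c ^ 2 + d ^ 2) := by
    have : (a ^ 2 + b ^ 2) * (c ^ 2 + d ^ 2) = (a * c + b * d) ^ 2 + (a * d - b * c) ^ 2 := by ring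
    rw [this, hdet]
    ring
  have hne := hden.ne'
  rw [show (2 : ℝ) * (1 + ((0 - (a * c + b * d) / (c ^ 2 + d ^ 2)) ^ 2 +
      (1 - 1 / (c ^ 2 + d ^ 2)) ^ 2) / (2 * 1 * (1 / (c ^ 2 + d ^ 2)))) =
      ((a * c + b * d) ^ 2 + 1 + (c ^ 2 + d ^ 2) ^ 2) / (c ^ 2 + d ^ 2) by
    field_simp
    ring]
  rw [hq]
  field_simp
  ring

/-- spectral projection of a hyperbolic matrix, `x` the large eigenvalue -/
noncomputable def tau_P (M : Matrix (Fin 2) (Fin 2) ℝ) (x : ℝ) : Matrix (Fin 2) (Fin 2) ℝ :=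
  (x - x⁻¹)⁻¹ • (M - x⁻¹ • 1)

/-- the eigenvalue with the sign of the trace -/
theorem tau_eig (A : SL(2, ℝ)) (h : 2 < |A.1.trace|) :
    ∃ x : ℝ, |x| = lamb A ∧ 1 < |x| ∧ x + x⁻¹ = A.1.trace := by
  set t := A.1.trace with ht
  have h4 : 0 < t ^ 2 - 4 := by
    have : (2 : ℝ) ^ 2 < |t| ^ 2 := by gcongr
    rw [sq_abs] at this
    linarith
  have hs := Real.sq_sqrt h4.le
  have hspos := Real.sqrt_pos.2 h4
  have hlam : lamb A = (|t| + √(t ^ 2 - 4)) / 2 := rfl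
  have hl1 : 1 < lamb A := by rw [hlam]; linarith
  have hinv : (lamb A)⁻¹ = (|t| - √(t ^ 2 - 4)) / 2 := by
    refine inv_eq_of_mul_eq_one_right ?_
    rw [hlam]
    have := sq_abs t
    nlinarith
  rcases le_total 0 t with h0 | h0
  · refine ⟨lamb A, abs_of_pos (by linarith), by rwa [abs_of_pos (by linarith)], ?_⟩
    rw [hinv, hlam, abs_of_nonneg h0]
    ring
  · refine ⟨-lamb A, by rw [abs_neg, abs_of_pos (by linarith)],
      by rwa [abs_neg, abs_of_pos (by linarith)], ?_⟩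
    rw [inv_neg, hinv, hlam, abs_of_nonpos h0]
    ring

theorem tau_char (A : SL(2, ℝ)) : A.1 * A.1 = A.1.trace • A.1 - 1 := by
  have hdet : A.1 0 0 * A.1 1 1 - A.1 0 1 * A.1 1 0 = 1 := by
    have := A.2
    rwa [Matrix.det_fin_two] at this
  ext i j
  fin_cases i <;> fin_cases j <;>
    simp [Matrix.mul_apply, Fin.sum_univ_two, Matrix.trace_fin_two] <;> linarith

theorem tau_pow (A : SL(2, ℝ)) (x : ℝ) (hx : 1 < |x|) (ht : x + x⁻¹ = A.1.trace) (n : ℕ) :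
    (A ^ n).1 = x ^ n • tau_P A.1 x + (x⁻¹) ^ n • (1 - tau_P A.1 x) := by
  have hx0 : x ≠ 0 := by
    rintro rfl
    norm_num at hx
  have hd : x - x⁻¹ ≠ 0 := by
    intro h
    have h1 : x * x = 1 := by
      have : x = x⁻¹ := by linarith
      calc x * x = x * x⁻¹ := by rw [← this]
        _ = 1 := mul_inv_cancel₀ hx0
    have h2 : |x| * |x| = 1 := by rw [← abs_mul, h1, abs_one]
    nlinarith
  have hA : A.1 = x • tau_P A.1 x + x⁻¹ • (1 - tau_P A.1 x) := by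
    have : x • tau_P A.1 x + x⁻¹ • (1 - tau_P A.1 x) = (x - x⁻¹) • tau_P A.1 x + x⁻¹ • 1 := by
      rw [smul_sub, sub_smul]
      abel
    rw [this]
    unfold tau_P
    rw [smul_smul, mul_inv_cancel₀ hd, one_smul]
    abel
  have hP : tau_P A.1 x * tau_P A.1 x = tau_P A.1 x := by
    unfold tau_P
    rw [smul_mul_smul_comm]
    have h1 : (A.1 - x⁻¹ • (1 : Matrix (Fin 2) (Fin 2) ℝ)) * (A.1 - x⁻¹ • 1) =
        (x - x⁻¹) • (A.1 - x⁻¹ • 1) := by
      rw [sub_mul, mul_sub, mul_sub, tau_char, ← ht]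
      simp only [smul_mul_assoc, mul_smul_comm, one_mul, mul_one, smul_smul]
      ext i j
      fin_cases i <;> fin_cases j <;> simp <;> field_simp <;> ring
    rw [h1, smul_smul]
    congr 1
    field_simp
  have hPQ : tau_P A.1 x * (1 - tau_P A.1 x) = 0 := by rw [mul_sub, mul_one, hP, sub_self]
  have hQP : (1 - tau_P A.1 x) * tau_P A.1 x = 0 := by rw [sub_mul, one_mul, hP, sub_self]
  have hQQ : (1 - tau_P A.1 x) * (1 - tau_P A.1 x) = 1 - tau_P A.1 x := by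
    rw [mul_sub, mul_one, hQP, sub_zero]
  induction n with
  | zero => simp
  | succ n ih =>
    rw [pow_succ, Matrix.SpecialLinearGroup.coe_mul]
    rw [show (A ^ n).1 = x ^ n • tau_P A.1 x + (x⁻¹) ^ n • (1 - tau_P A.1 x) from ih]
    conv_lhs => enter [2]; rw [hA]
    simp only [add_mul, mul_add, smul_mul_smul_comm, hP, hPQ, hQP, hQQ, smul_zero, add_zero,
      zero_add, pow_succ]

theorem tau_nsq_smul (c : ℝ) (M : Matrix (Fin 2) (Fin 2) ℝ) : nsq (c • M) = c ^ 2 * nsq M := by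
  simp only [nsq, Matrix.smul_apply, smul_eq_mul]
  ring

theorem tau_nsq_cont : Continuous nsq := by
  unfold nsq
  fun_prop

theorem tau_lim (A : SL(2, ℝ)) (x : ℝ) (hx : 1 < |x|) (ht : x + x⁻¹ = A.1.trace) :
    Tendsto (fun n : ℕ => ((x⁻¹) ^ n) ^ 2 * nsq (A ^ n).1) atTop (𝓝 (nsq (tau_P A.1 x))) := by
  have hx0 : x ≠ 0 := by
    rintro rfl
    norm_num at hx
  have h1 : (fun n : ℕ => (x⁻¹) ^ n • (A ^ n).1) =
      fun n : ℕ => tau_P A.1 x + ((x⁻¹ * x⁻¹) ^ n) • (1 - tau_P A.1 x) := by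
    funext n
    rw [tau_pow A x hx ht, smul_add, smul_smul, smul_smul, ← mul_pow, ← mul_pow,
      inv_mul_cancel₀ hx0, one_pow, one_smul]
  have h2 : |x⁻¹ * x⁻¹| < 1 := by
    rw [abs_mul, abs_inv]
    have h3 : |x|⁻¹ < 1 := inv_lt_one_of_one_lt₀ hx
    have h0 : 0 < |x|⁻¹ := by positivity
    nlinarith
  have h3 : Tendsto (fun n : ℕ => (x⁻¹ * x⁻¹) ^ n) atTop (𝓝 0) :=
    tendsto_pow_atTop_nhds_zero_of_abs_lt_one h2
  have h4 : Tendsto (fun n : ℕ => (x⁻¹) ^ n • (A ^ n).1) atTop (𝓝 (tau_P A.1 x)) := by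
    rw [h1]
    have h4 := (h3.smul_const (1 - tau_P A.1 x)).const_add (tau_P A.1 x)
    simpa using h4
  have h5 := (tau_nsq_cont.tendsto _).comp h4
  refine h5.congr (fun n => ?_)
  simp only [Function.comp]
  rw [tau_nsq_smul]

theorem tau_nsq_pos (A : SL(2, ℝ)) (x : ℝ) (hx : 1 < |x|) (ht : x + x⁻¹ = A.1.trace) :
    0 < nsq (tau_P A.1 x) := by
  have hx0 : x ≠ 0 := by
    rintro rfl
    norm_num at hx
  have hd : x - x⁻¹ ≠ 0 := by
    intro h
    have h1 : x * x = 1 := by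
      have : x = x⁻¹ := by linarith
      calc x * x = x * x⁻¹ := by rw [← this]
        _ = 1 := mul_inv_cancel₀ hx0
    have h2 : |x| * |x| = 1 := by rw [← abs_mul, h1, abs_one]
    nlinarith
  have htr : (tau_P A.1 x) 0 0 + (tau_P A.1 x) 1 1 = 1 := by
    have h1 : A.1 0 0 + A.1 1 1 = x + x⁻¹ := by rw [ht, Matrix.trace_fin_two]
    unfold tau_P
    simp only [Matrix.smul_apply, Matrix.sub_apply, Matrix.one_apply_eq, smul_eq_mul, mul_one]
    have : (x - x⁻¹)⁻¹ * (A.1 0 0 - x⁻¹) + (x - x⁻¹)⁻¹ * (A.1 1 1 - x⁻¹) =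
        (x - x⁻¹)⁻¹ * (A.1 0 0 + A.1 1 1 - x⁻¹ - x⁻¹) := by ring
    rw [this, h1, show x + x⁻¹ - x⁻¹ - x⁻¹ = x - x⁻¹ by ring, inv_mul_cancel₀ hd]
  unfold nsq
  nlinarith [sq_nonneg ((tau_P A.1 x) 0 0), sq_nonneg ((tau_P A.1 x) 1 1),
    sq_nonneg ((tau_P A.1 x) 0 1), sq_nonneg ((tau_P A.1 x) 1 0),
    sq_nonneg ((tau_P A.1 x) 0 0 - (tau_P A.1 x) 1 1)]

theorem st_TAU : ST_TAU := by
  intro A hA
  obtain ⟨x, hxl, hx, ht⟩ := tau_eig A hA
  set r : ℕ → ℝ := fun n => ((x⁻¹) ^ n) ^ 2 * nsq (A ^ n).1 with hr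
  have hlim : Tendsto r atTop (𝓝 (nsq (tau_P A.1 x))) := tau_lim A x hx ht
  have hpos := tau_nsq_pos A x hx ht
  have hlog : Tendsto (fun n => Real.log (r n)) atTop (𝓝 (Real.log (nsq (tau_P A.1 x)))) :=
    hlim.log hpos.ne'
  have hx0 : x ≠ 0 := by
    rintro rfl
    norm_num at hx
  have hn : Tendsto (fun n : ℕ => ((n : ℝ))⁻¹) atTop (𝓝 0) := tendsto_inv_atTop_nhds_zero_nat
  have hcosh : ∀ n : ℕ, 0 < nsq (A ^ n).1 := by
    intro n
    rw [← tau_norm]
    positivity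
  have hlogn : ∀ n : ℕ, Real.log (nsq (A ^ n).1) = Real.log (r n) + n * (2 * Real.log (lamb A)) := by
    intro n
    have h1 : ((x⁻¹) ^ n) ^ 2 ≠ 0 := by positivity
    rw [hr]
    simp only
    rw [Real.log_mul h1 (hcosh n).ne', Real.log_pow, Real.log_pow, Real.log_inv, ← Real.log_abs x,
      hxl]
    push_cast
    ring
  have hup : ∀ n : ℕ, dist (I : ℍ) (A ^ n • (I : ℍ)) ≤ Real.log (nsq (A ^ n).1) := by
    intro n
    rw [← tau_norm, Real.le_log_iff_exp_le (by positivity), Real.cosh_eq]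
    have := Real.exp_pos (-dist (I : ℍ) (A ^ n • (I : ℍ)))
    linarith
  have hlo : ∀ n : ℕ, Real.log (nsq (A ^ n).1) - Real.log 2 ≤ dist (I : ℍ) (A ^ n • (I : ℍ)) := by
    intro n
    rw [← tau_norm, sub_le_iff_le_add, Real.log_le_iff_le_exp (by positivity), Real.exp_add,
      Real.exp_log (by norm_num), Real.cosh_eq]
    have h1 : Real.exp (-dist (I : ℍ) (A ^ n • (I : ℍ))) ≤ Real.exp (dist (I : ℍ) (A ^ n • (I : ℍ))) := by
      apply Real.exp_le_exp.2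
      have := dist_nonneg (x := (I : ℍ)) (y := A ^ n • (I : ℍ))
      linarith
    linarith
  have hU : Tendsto (fun n : ℕ => Real.log (r n) * ((n : ℝ))⁻¹ + 2 * Real.log (lamb A)) atTop
      (𝓝 (2 * Real.log (lamb A))) := by
    have := (hlog.mul hn).add_const (2 * Real.log (lamb A))
    simpa using this
  have hL : Tendsto (fun n : ℕ => (Real.log (r n) - Real.log 2) * ((n : ℝ))⁻¹ +
      2 * Real.log (lamb A)) atTop (𝓝 (2 * Real.log (lamb A))) := by
    have := ((hlog.sub_const (Real.log 2)).mul hn).add_const (2 * Real.log (lamb A))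
    simpa using this
  refine tendsto_of_tendsto_of_tendsto_of_le_of_le' hL hU ?_ ?_
  · filter_upwards [eventually_gt_atTop 0] with n hn0
    have hn1 : (0 : ℝ) < n := by exact_mod_cast hn0
    have := hlo n
    rw [hlogn] at this
    rw [le_div_iff₀ hn1]
    calc ((Real.log (r n) - Real.log 2) * ((n : ℝ))⁻¹ + 2 * Real.log (lamb A)) * n
        = Real.log (r n) + n * (2 * Real.log (lamb A)) - Real.log 2 := by
          field_simp
          ring
      _ ≤ _ := this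
  · filter_upwards [eventually_gt_atTop 0] with n hn0
    have hn1 : (0 : ℝ) < n := by exact_mod_cast hn0
    have := hup n
    rw [hlogn] at this
    rw [div_le_iff₀ hn1]
    calc dist (I : ℍ) (A ^ n • (I : ℍ)) ≤ Real.log (r n) + n * (2 * Real.log (lamb A)) := this
      _ = (Real.log (r n) * ((n : ℝ))⁻¹ + 2 * Real.log (lamb A)) * n := by
          field_simp

end Pool.Agent.Helper12.GM
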