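import Mathlib
import Pool.Agent.Helper12.GM.Stmts

set_option autoImplicit false

open scoped MatrixGroups
open Filter Topology

namespace Pool.Agent.Helper12.GM

/-- the rank one projection of a positive matrix -/
noncomputable def trc_P (A : SL(2, ℝ)) : Matrix (Fin 2) (Fin 2) ℝ :=
  (xi A - et A)⁻¹ • !![xi A, -(xi A * et A); 1, -et A]

theorem trc_disc (A : SL(2, ℝ)) (h : ∀ i j, 0 < A.1 i j) :
    0 < (A.1 0 0 + A.1 1 1) ^ 2 - 4 := by
  have hdet : A.1 0 0 * A.1 1 1 - A.1 0 1 * A.1 1 0 = 1 := by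
    have := A.2
    rwa [Matrix.det_fin_two] at this
  have h1 := mul_pos (h 0 1) (h 1 0)
  nlinarith [sq_nonneg (A.1 0 0 - A.1 1 1)]

theorem trc_lamb (A : SL(2, ℝ)) (h : ∀ i j, 0 < A.1 i j) :
    lamb A = ((A.1 0 0 + A.1 1 1) + √((A.1 0 0 + A.1 1 1) ^ 2 - 4)) / 2 := by
  unfold lamb
  rw [Matrix.trace_fin_two, abs_of_pos (add_pos (h 0 0) (h 1 1))]

theorem trc_one_lt (A : SL(2, ℝ)) (h : ∀ i j, 0 < A.1 i j) : 1 < lamb A := by
  rw [trc_lamb A h]
  have h1 := trc_disc A h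
  have h2 : 0 < √((A.1 0 0 + A.1 1 1) ^ 2 - 4) := Real.sqrt_pos.2 h1
  have h3 : 2 < A.1 0 0 + A.1 1 1 := by
    have := add_pos (h 0 0) (h 1 1)
    nlinarith
  linarith

theorem trc_diff (A : SL(2, ℝ)) (h : ∀ i j, 0 < A.1 i j) :
    xi A - et A = √((A.1 0 0 + A.1 1 1) ^ 2 - 4) / A.1 1 0 := by
  unfold xi et
  have := (h 1 0).ne'
  field_simp
  ring

theorem trc_diff_pos (A : SL(2, ℝ)) (h : ∀ i j, 0 < A.1 i j) : 0 < xi A - et A := by
  rw [trc_diff A h]
  exact div_pos (Real.sqrt_pos.2 (trc_disc A h)) (h 1 0)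

theorem trc_prod (A : SL(2, ℝ)) (h : ∀ i j, 0 < A.1 i j) :
    xi A * et A = -(A.1 0 1 / A.1 1 0) := by
  have hdet : A.1 0 0 * A.1 1 1 - A.1 0 1 * A.1 1 0 = 1 := by
    have := A.2
    rwa [Matrix.det_fin_two] at this
  have hs := Real.sq_sqrt (trc_disc A h).le
  have hc := (h 1 0).ne'
  unfold xi et
  set s := √((A.1 0 0 + A.1 1 1) ^ 2 - 4) with hsdef
  field_simp
  nlinarith

theorem trc_xi_pos (A : SL(2, ℝ)) (h : ∀ i j, 0 < A.1 i j) : 0 < xi A ∧ et A < 0 := by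
  have h1 := trc_diff_pos A h
  have h2 := trc_prod A h
  have h3 := div_pos (h 0 1) (h 1 0)
  constructor
  · by_contra hc
    push Not at hc
    have : et A < 0 := by linarith
    nlinarith [mul_nonneg_of_nonpos_of_nonpos hc this.le]
  · by_contra hc
    push Not at hc
    have : 0 < xi A := by linarith
    nlinarith [mul_nonneg this.le hc]

theorem trc_sq (A : SL(2, ℝ)) (h : ∀ i j, 0 < A.1 i j) : trc_P A * trc_P A = trc_P A := by
  have hd := (trc_diff_pos A h).ne'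
  unfold trc_P
  ext i j
  fin_cases i <;> fin_cases j <;>
    simp [Matrix.mul_apply, Fin.sum_univ_two] <;> field_simp <;> ring

theorem trc_A (A : SL(2, ℝ)) (h : ∀ i j, 0 < A.1 i j) :
    A.1 = lamb A • trc_P A + (lamb A)⁻¹ • (1 - trc_P A) := by
  have hl := trc_one_lt A h
  have hdet : A.1 0 0 * A.1 1 1 - A.1 0 1 * A.1 1 0 = 1 := by
    have := A.2
    rwa [Matrix.det_fin_two] at this
  have hs := Real.sq_sqrt (trc_disc A h).le
  have hspos := Real.sqrt_pos.2 (trc_disc A h)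
  have hc := (h 1 0).ne'
  have hinv : (lamb A)⁻¹ = ((A.1 0 0 + A.1 1 1) - √((A.1 0 0 + A.1 1 1) ^ 2 - 4)) / 2 := by
    refine inv_eq_of_mul_eq_one_right ?_
    rw [trc_lamb A h]
    nlinarith
  have hd := trc_diff A h
  have hp := trc_prod A h
  rw [hinv, trc_lamb A h]
  unfold trc_P
  rw [hp, hd]
  unfold xi et
  set s := √((A.1 0 0 + A.1 1 1) ^ 2 - 4) with hsdef
  have hs0 := hspos.ne'
  ext i j
  fin_cases i <;> fin_cases j <;> simp <;> field_simp <;> ring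

theorem trc_pow (A : SL(2, ℝ)) (h : ∀ i j, 0 < A.1 i j) (n : ℕ) :
    (A ^ n).1 = lamb A ^ n • trc_P A + ((lamb A)⁻¹) ^ n • (1 - trc_P A) := by
  have hP := trc_sq A h
  have hPQ : trc_P A * (1 - trc_P A) = 0 := by rw [mul_sub, mul_one, hP, sub_self]
  have hQP : (1 - trc_P A) * trc_P A = 0 := by rw [sub_mul, one_mul, hP, sub_self]
  have hQQ : (1 - trc_P A) * (1 - trc_P A) = 1 - trc_P A := by
    rw [mul_sub, mul_one, hQP, sub_zero]
  induction n with
  | zero => simp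
  | succ n ih =>
    rw [pow_succ, Matrix.SpecialLinearGroup.coe_mul]
    rw [show (A ^ n).1 = lamb A ^ n • trc_P A + ((lamb A)⁻¹) ^ n • (1 - trc_P A) from ih]
    conv_lhs => rw [trc_A A h]
    simp only [add_mul, mul_add, smul_mul_smul_comm, hP, hPQ, hQP, hQQ, smul_zero, add_zero,
      zero_add, pow_succ]

theorem trc_lim (A : SL(2, ℝ)) (h : ∀ i j, 0 < A.1 i j) :
    Tendsto (fun n : ℕ => ((lamb A)⁻¹) ^ n • (A ^ n).1) atTop (𝓝 (trc_P A)) := by
  have hl := trc_one_lt A h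
  have hl0 : lamb A ≠ 0 := by positivity
  have h1 : (fun n : ℕ => ((lamb A)⁻¹) ^ n • (A ^ n).1) =
      fun n : ℕ => trc_P A + (((lamb A)⁻¹ * (lamb A)⁻¹) ^ n) • (1 - trc_P A) := by
    funext n
    rw [trc_pow A h, smul_add, smul_smul, smul_smul, ← mul_pow, ← mul_pow, inv_mul_cancel₀ hl0,
      one_pow, one_smul]
  rw [h1]
  have h2 : (lamb A)⁻¹ * (lamb A)⁻¹ < 1 := by
    have : (lamb A)⁻¹ < 1 := inv_lt_one_of_one_lt₀ hl
    have h0 : 0 < (lamb A)⁻¹ := by positivity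
    nlinarith
  have h3 : Tendsto (fun n : ℕ => ((lamb A)⁻¹ * (lamb A)⁻¹) ^ n) atTop (𝓝 0) :=
    tendsto_pow_atTop_nhds_zero_of_lt_one (by positivity) h2
  have h4 := (h3.smul_const (1 - trc_P A)).const_add (trc_P A)
  simpa using h4

theorem st_TRC : ST_TRC := by
  intro A B C hA hB hC
  have lA := trc_one_lt A hA
  have lB := trc_one_lt B hB
  have lC := trc_one_lt C hC
  set Λ : ℝ := lamb A * lamb B * lamb C with hΛ
  have hΛ1 : 1 < Λ := by
    have : 1 < lamb A * lamb B := by nlinarith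
    nlinarith
  set T : ℝ := (xi B - et A) * (xi C - et B) * (xi A - et C) /
      ((xi A - et A) * (xi B - et B) * (xi C - et C)) with hT
  have hTpos : 0 < T := by
    have a1 := trc_diff_pos A hA
    have b1 := trc_diff_pos B hB
    have c1 := trc_diff_pos C hC
    obtain ⟨a2, a3⟩ := trc_xi_pos A hA
    obtain ⟨b2, b3⟩ := trc_xi_pos B hB
    obtain ⟨c2, c3⟩ := trc_xi_pos C hC
    have e1 : 0 < xi B - et A := by linarith
    have e2 : 0 < xi C - et B := by linarith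
    have e3 : 0 < xi A - et C := by linarith
    positivity
  have hlim : Tendsto (fun n : ℕ => (Λ⁻¹) ^ n * (A ^ n * B ^ n * C ^ n).1.trace) atTop (𝓝 T) := by
    have h1 := ((trc_lim A hA).mul (trc_lim B hB)).mul (trc_lim C hC)
    have h2 : Tendsto (fun M : Matrix (Fin 2) (Fin 2) ℝ => M.trace) (𝓝 (trc_P A * trc_P B * trc_P C))
        (𝓝 (trc_P A * trc_P B * trc_P C).trace) :=
      (continuous_id.matrix_trace).tendsto _
    have h3 := h2.comp h1
    have h4 : (trc_P A * trc_P B * trc_P C).trace = T := by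
      have a1 := (trc_diff_pos A hA).ne'
      have b1 := (trc_diff_pos B hB).ne'
      have c1 := (trc_diff_pos C hC).ne'
      rw [hT]
      unfold trc_P
      simp [Matrix.trace_fin_two, Matrix.mul_apply, Fin.sum_univ_two]
      field_simp
      ring
    rw [h4] at h3
    refine h3.congr (fun n => ?_)
    simp only [Function.comp]
    rw [smul_mul_smul_comm, smul_mul_smul_comm, Matrix.trace_smul, ← mul_pow, ← mul_pow,
      smul_eq_mul, hΛ, mul_inv, mul_inv]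
    rfl
  have hz : Tendsto (fun n : ℕ => 4 * ((Λ⁻¹) ^ n) ^ 2) atTop (𝓝 0) := by
    have : Tendsto (fun n : ℕ => (Λ⁻¹) ^ n) atTop (𝓝 0) :=
      tendsto_pow_atTop_nhds_zero_of_lt_one (by positivity) (inv_lt_one_of_one_lt₀ hΛ1)
    have := (this.pow 2).const_mul 4
    simpa using this
  have h5 : Tendsto (fun n : ℕ => (|(Λ⁻¹) ^ n * (A ^ n * B ^ n * C ^ n).1.trace| +
      √(((Λ⁻¹) ^ n * (A ^ n * B ^ n * C ^ n).1.trace) ^ 2 - 4 * ((Λ⁻¹) ^ n) ^ 2)) / 2) atTop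
      (𝓝 ((|T| + √(T ^ 2 - 0)) / 2)) :=
    (hlim.abs.add ((hlim.pow 2).sub hz).sqrt).div_const 2
  have h6 : (|T| + √(T ^ 2 - 0)) / 2 = T := by
    rw [sub_zero, Real.sqrt_sq hTpos.le, abs_of_pos hTpos]
    ring
  rw [h6] at h5
  refine h5.congr (fun n => ?_)
  unfold lamb
  set t := (A ^ n * B ^ n * C ^ n).1.trace with ht
  have hpos : 0 < (Λ⁻¹) ^ n := by positivity
  have h7 : √(((Λ⁻¹) ^ n * t) ^ 2 - 4 * ((Λ⁻¹) ^ n) ^ 2) = (Λ⁻¹) ^ n * √(t ^ 2 - 4) := by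
    rw [show ((Λ⁻¹) ^ n * t) ^ 2 - 4 * ((Λ⁻¹) ^ n) ^ 2 = ((Λ⁻¹) ^ n) ^ 2 * (t ^ 2 - 4) by ring,
      Real.sqrt_mul (by positivity), Real.sqrt_sq hpos.le]
  rw [h7, abs_mul, abs_of_pos hpos, inv_pow]
  field_simp

end Pool.Agent.Helper12.GM
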